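import Pool.Agent.Helper23.Overshear.Iff

/-!
# MP_4d3b38_an: the overshear group is meagre

Let `X` be an affine algebraic variety (smooth or not), given by its coordinate ring `A = ℂ[X]`, a
reduced finitely generated `ℂ`-algebra. If `X` has the algebraic overshear density property, then
`G_os(X)` is meagre in `Aut_1(X)` if and only if `X` is infinite, i.e. of positive dimension.
(For finite `X` both groups are trivial.)

The definitions are in `Pool/Agent/Helper23/Overshear/Stmt.lean`.
-/

set_option autoImplicit false

namespace Pool.Agent.Results.MP_4d3b38_an.OvershearMeagre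

open Pool.Agent.OvershearGroup

universe u

theorem result (A : Type u) [CommRing A] [Algebra ℂ A] [Algebra.FiniteType ℂ A] [IsReduced A]
    (hos : AOSDP A) :
    IsMeagre (GosInAut1 A) ↔ Infinite (Pt A) :=
  Pool.Agent.Overshear.isMeagre_iff A hos

end Pool.Agent.Results.MP_4d3b38_an.OvershearMeagre
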